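import Pool.Agent.helper20.FN.Wire3

/-!
# Height profile of uniform spanning trees on mean-field graphs (Q1, functional form)

For every sequence of finite connected vertex-transitive graphs satisfying (A1) and (A2), and every
bounded sequence `β` (bounded away from `0`) for which the rescaled volume profiles converge (this is how
the sequence `β_n` of the problem enters), the rescaled height profiles converge in distribution, for the
topology of uniform convergence on compact subsets of `(0, ∞)`, to the density of the limiting volume profile.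
-/

open scoped BigOperators Topology
open Filter MeasureTheory

namespace Pool.Agent.Results.MP_5ae64c_pr.HeightProfileFunctional

open Classical in
/-- `lazyP G t x y` : `t`-step transition probability of lazy simple random walk on `G` -/
noncomputable def lazyP {V : Type} [Fintype V] (G : SimpleGraph V) : ℕ → V → V → ℝ
  | 0, x, y => if x = y then 1 else 0
  | t + 1, x, y => (1 / 2) * lazyP G t x y
      + (1 / 2) * ((∑ z, if G.Adj x z then lazyP G t z y else 0)
        / ((Finset.univ.filter (fun z => G.Adj x z)).card : ℝ))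

/-- the mixing time `min {t : max_{x,y} |n p_t(x,y) - 1| ≤ 1/2}` -/
noncomputable def tmix {V : Type} [Fintype V] (G : SimpleGraph V) : ℕ :=
  sInf {t : ℕ | ∀ x y : V, |(Fintype.card V : ℝ) * lazyP G t x y - 1| ≤ 1 / 2}

open Classical in
/-- the finite set of spanning trees of `G` -/
noncomputable def spTrees {V : Type} [Fintype V] (G : SimpleGraph V) : Finset (SimpleGraph V) :=
  Finset.univ.filter (fun T => T ≤ G ∧ T.IsTree)

/-- expectation of `F T` for a uniform spanning tree `T` of `G` -/
noncomputable def ustE {V : Type} [Fintype V] (G : SimpleGraph V) (F : SimpleGraph V → ℝ) : ℝ :=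
  (∑ T ∈ spTrees G, F T) / ((spTrees G).card : ℝ)

/-- height profile: number of vertices at `T`-distance `r` from `o` -/
noncomputable def height {V : Type} [Fintype V] (T : SimpleGraph V) (o : V) (r : ℕ) : ℕ :=
  (Finset.univ.filter (fun v => T.dist o v = r)).card

/-- volume profile: number of vertices at `T`-distance at most `r` from `o` -/
noncomputable def vol {V : Type} [Fintype V] (T : SimpleGraph V) (o : V) (r : ℕ) : ℕ :=
  (Finset.univ.filter (fun v => T.dist o v ≤ r)).card

/-- `Ψ` is a bounded functional of functions on the line, continuous for uniform convergence on compact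
subsets of `(0, ∞)` at every function which is continuous on `(0, ∞)` -/
structure CtsFunctional (Ψ : (ℝ → ℝ) → ℝ) : Prop where
  bdd : ∃ M, ∀ g, |Ψ g| ≤ M
  cts : ∀ g : ℝ → ℝ, ContinuousOn g (Set.Ioi 0) → ∀ ε : ℝ, 0 < ε → ∃ a b δ : ℝ, 0 < a ∧ a < b ∧
    0 < δ ∧ ∀ g' : ℝ → ℝ, (∀ s ∈ Set.Icc a b, |g' s - g s| ≤ δ) → |Ψ g' - Ψ g| ≤ ε

theorem lazyP_eq {V : Type} [Fintype V] (G : SimpleGraph V) (t : ℕ) (x y : V) :
    lazyP G t x y = Pool.Agent.helper20.HP.lazyP G t x y := by
  induction t generalizing x with
  | zero => rfl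
  | succ t ih => simp only [lazyP, Pool.Agent.helper20.HP.lazyP, ih]

theorem tmix_eq {V : Type} [Fintype V] (G : SimpleGraph V) :
    tmix G = Pool.Agent.helper20.HP.tmix G := by
  unfold tmix Pool.Agent.helper20.HP.tmix
  simp only [lazyP_eq]

/-- **Q1, functional form.** -/
theorem result
    -- finite connected vertex-transitive graphs `G k` with `card (V k) → ∞`, and roots `o k`
    (V : ℕ → Type) [∀ k, Fintype (V k)] (G : ∀ k, SimpleGraph (V k)) (o : ∀ k, V k)
    (hconn : ∀ k, (G k).Connected)
    (htrans : ∀ k, ∀ x y : V k, ∃ f : G k ≃g G k, f x = y)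
    (hcard : Tendsto (fun k => Fintype.card (V k)) atTop atTop)
    -- assumption (A1)
    (θ : ℝ) (hA1 : ∀ k, ∀ x : V k, ∑ t ∈ Finset.range (Nat.sqrt (Fintype.card (V k)) + 1),
      ((t : ℝ) + 1) * lazyP (G k) t x x ≤ θ)
    -- assumption (A2)
    (α : ℝ) (hα : 0 < α)
    (hA2 : Tendsto (fun k => (tmix (G k) : ℝ) / (Fintype.card (V k) : ℝ) ^ (1 / 2 - α)) atTop (𝓝 0))
    -- the normalising sequence
    (β : ℕ → ℝ) (b₁ b₂ : ℝ) (hb₁ : 0 < b₁) (hβ : ∀ k, b₁ ≤ β k ∧ β k ≤ b₂)
    -- the continuum profile: a random function with almost surely continuous paths on (0,∞)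
    (Ω : Type) [MeasurableSpace Ω] (P : Measure Ω) [IsProbabilityMeasure P] (ell : ℝ → Ω → ℝ)
    (hmeas : ∀ r, 0 < r → AEMeasurable (ell r) P)
    (hcont : ∀ᵐ ω ∂P, ContinuousOn (fun r => ell r ω) (Set.Ioi 0))
    (hint : ∀ᵐ ω ∂P, ∀ r, 0 < r → IntervalIntegrable (fun u => ell u ω) volume 0 r)
    -- `β` is such that the rescaled volume profiles converge to `∫_0^r ell`
    (hvol : ∀ (m : ℕ) (s : Fin m → ℝ), (∀ i, 0 < s i) → ∀ F : BoundedContinuousFunction (Fin m → ℝ) ℝ,
      Tendsto (fun k => ustE (G k) (fun T => F (fun i =>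
          (vol T (o k) ⌊s i * β k * Real.sqrt (Fintype.card (V k))⌋₊ : ℝ)
            / (Fintype.card (V k) : ℝ)))) atTop
        (𝓝 (∫ ω, F (fun i => ∫ u in (0 : ℝ)..(s i), ell u ω) ∂P))) :
    -- convergence in distribution of the rescaled height profiles, for the topology of uniform
    -- convergence on compact subsets of `(0, ∞)`
    ∀ Ψ : (ℝ → ℝ) → ℝ, CtsFunctional Ψ →
      Tendsto (fun k => ustE (G k) (fun T => Ψ (fun s =>
          β k / Real.sqrt (Fintype.card (V k))
            * (height T (o k) ⌊s * β k * Real.sqrt (Fintype.card (V k))⌋₊ : ℝ)))) atTop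
        (𝓝 (∫ ω, Ψ (fun r => ell r ω) ∂P)) := by
  classical
  let S : Pool.Agent.helper20.HP.Setup :=
    { V := V
      ft := inferInstance
      de := fun _ => Classical.decEq _
      G := G
      conn := hconn
      trans := fun k x y => htrans k x y
      card := hcard
      θ := θ
      A1 := by
        intro k x
        simpa only [lazyP_eq] using hA1 k x
      α := α
      α_pos := hα
      A2 := by simpa only [tmix_eq] using hA2
      o := o }
  intro Ψ hΨ
  exact Pool.Agent.helper20.FN.func S β b₁ b₂ hb₁ hβ Ω inferInstance P inferInstance ell hmeas hcont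
    hint hvol Ψ ⟨hΨ.bdd, hΨ.cts⟩

end Pool.Agent.Results.MP_5ae64c_pr.HeightProfileFunctional
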