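import Pool.Agent.helper20.FN.Wire3

/-!
# Asymptotic equicontinuity of the height profile of uniform spanning trees

For every sequence of finite connected vertex-transitive graphs satisfying (A1) and (A2), the rescaled
height profile of the uniform spanning tree is asymptotically uniformly equicontinuous in probability
(tightness for the topology of uniform convergence on compact sets). No hypothesis besides (A1) and (A2)
is used.
-/

open scoped BigOperators Topology
open Filter MeasureTheory

namespace Pool.Agent.Results.MP_5ae64c_pr.HeightProfileTightness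

open Classical in
/-- `lazyP G t x y` : `t`-step transition probability of lazy simple random walk on `G` -/
noncomputable def lazyP {V : Type} [Fintype V] (G : SimpleGraph V) : ℕ → V → V → ℝ
  | 0, x, y => if x = y then 1 else 0
  | t + 1, x, y => (1 / 2) * lazyP G t x y
      + (1 / 2) * ((∑ z, if G.Adj x z then lazyP G t z y else 0)
        / ((Finset.univ.filter (fun z => G.Adj x z)).card : ℝ))

/-- the mixing time `min {t : max_{x,y} |n p_t(x,y) - 1| ≤ 1/2}` -/
noncomputable def tmix {V : Type} [Fintype V] (G : SimpleGraph V) : ℕ :=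
  sInf {t : ℕ | ∀ x y : V, |(Fintype.card V : ℝ) * lazyP G t x y - 1| ≤ 1 / 2}

open Classical in
/-- the finite set of spanning trees of `G` -/
noncomputable def spTrees {V : Type} [Fintype V] (G : SimpleGraph V) : Finset (SimpleGraph V) :=
  Finset.univ.filter (fun T => T ≤ G ∧ T.IsTree)

/-- expectation of `F T` for a uniform spanning tree `T` of `G` -/
noncomputable def ustE {V : Type} [Fintype V] (G : SimpleGraph V) (F : SimpleGraph V → ℝ) : ℝ :=
  (∑ T ∈ spTrees G, F T) / ((spTrees G).card : ℝ)

/-- height profile: number of vertices at `T`-distance `r` from `o` -/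
noncomputable def height {V : Type} [Fintype V] (T : SimpleGraph V) (o : V) (r : ℕ) : ℕ :=
  (Finset.univ.filter (fun v => T.dist o v = r)).card

theorem lazyP_eq {V : Type} [Fintype V] (G : SimpleGraph V) (t : ℕ) (x y : V) :
    lazyP G t x y = Pool.Agent.helper20.HP.lazyP G t x y := by
  induction t generalizing x with
  | zero => rfl
  | succ t ih => simp only [lazyP, Pool.Agent.helper20.HP.lazyP, ih]

theorem tmix_eq {V : Type} [Fintype V] (G : SimpleGraph V) :
    tmix G = Pool.Agent.helper20.HP.tmix G := by
  unfold tmix Pool.Agent.helper20.HP.tmix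
  simp only [lazyP_eq]

open Classical in
/-- indicator of a proposition -/
noncomputable def ind (p : Prop) : ℝ := if p then 1 else 0

/-- **Asymptotic equicontinuity in probability of the height profile.** -/
theorem result
    -- finite connected vertex-transitive graphs `G k` with `card (V k) → ∞`, and roots `o k`
    (V : ℕ → Type) [∀ k, Fintype (V k)] (G : ∀ k, SimpleGraph (V k)) (o : ∀ k, V k)
    (hconn : ∀ k, (G k).Connected)
    (htrans : ∀ k, ∀ x y : V k, ∃ f : G k ≃g G k, f x = y)
    (hcard : Tendsto (fun k => Fintype.card (V k)) atTop atTop)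
    -- assumption (A1)
    (θ : ℝ) (hA1 : ∀ k, ∀ x : V k, ∑ t ∈ Finset.range (Nat.sqrt (Fintype.card (V k)) + 1),
      ((t : ℝ) + 1) * lazyP (G k) t x x ≤ θ)
    -- assumption (A2)
    (α : ℝ) (hα : 0 < α)
    (hA2 : Tendsto (fun k => (tmix (G k) : ℝ) / (Fintype.card (V k) : ℝ) ^ (1 / 2 - α)) atTop (𝓝 0)) :
    ∀ A ε η : ℝ, 0 < ε → 0 < η → ∃ δ : ℝ, 0 < δ ∧ ∀ᶠ k in atTop,
      ustE (G k) (fun T => ind (∃ r r' : ℕ,
        (r : ℝ) ≤ A * Real.sqrt (Fintype.card (V k)) ∧
        (r' : ℝ) ≤ A * Real.sqrt (Fintype.card (V k)) ∧
        |(r : ℝ) - r'| ≤ δ * Real.sqrt (Fintype.card (V k)) ∧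
        ε * Real.sqrt (Fintype.card (V k)) < |(height T (o k) r : ℝ) - height T (o k) r'|)) ≤ η := by
  classical
  let S : Pool.Agent.helper20.HP.Setup :=
    { V := V
      ft := inferInstance
      de := fun _ => Classical.decEq _
      G := G
      conn := hconn
      trans := fun k x y => htrans k x y
      card := hcard
      θ := θ
      A1 := by
        intro k x
        simpa only [lazyP_eq] using hA1 k x
      α := α
      α_pos := hα
      A2 := by simpa only [tmix_eq] using hA2
      o := o }
  intro A ε η hε hη
  exact Pool.Agent.helper20.FN.equi S A ε η hε hη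

end Pool.Agent.Results.MP_5ae64c_pr.HeightProfileTightness
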